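import Pool.Agent.N557.BP.Stm

set_option autoImplicit false

/-!
Project BP (helper557), part ALLP: for almost every direction, every orbit has reflection points
close to vertices.
-/

namespace Pool.Agent.N130.BP

open Complex Set MeasureTheory Filter Topology Pool.Agent.W780.PG Pool.Agent.W780.BB
  Pool.Agent.TH103.BL Pool.Agent.N557.BP

open scoped Real ComplexConjugate

theorem t_allp : S_Allp := by
  classical
  intro n p hp
  obtain ⟨D, hD0, hD⟩ := exists_D hp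
  have hDs : ∀ i, ‖p (i + 1) - p i‖ ≤ D := fun i => hD _ (vert_mem hp _) _ (vert_mem hp _)
  have hall : ∀ᵐ θ : ℝ, ∀ m : ℕ, ∀ z ∈ reg p, ∀ (u : ℕ → Fin (n + 3)) (t : ℕ → ℝ),
      Orb p z θ u t → ∃ K s j, tp t K < s ∧ s < t K ∧
        ‖ps p z θ u K s - p j‖ < 1 / ((m : ℝ) + 1) := by
    rw [ae_all_iff]
    intro m
    exact allz hp (by positivity)
  filter_upwards [hall] with θ hθ z hz u t O ε hε
  by_contra hcon
  push Not at hcon
  obtain ⟨κ0, hκ0, hκε0⟩ := exists_kappa hp hε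
  obtain ⟨κ, hκ, hκ1, hsf⟩ : ∃ κ : ℝ, 0 < κ ∧ κ ≤ κ0 ∧ ∀ j, κ ≤ sf p j z := by
    have h1 : ∀ᶠ κ in 𝓝[>] (0 : ℝ), ∀ j, κ ≤ sf p j z := by
      rw [eventually_all]
      intro j
      have h2 : 0 < sf p j z := hz j
      filter_upwards [Ioo_mem_nhdsGT h2] with κ hκ using hκ.2.le
    have h2 : ∀ᶠ κ in 𝓝[>] (0 : ℝ), κ ≤ κ0 := by
      filter_upwards [Ioo_mem_nhdsGT hκ0] with κ hκ using hκ.2.le
    obtain ⟨κ, ⟨h3, h4⟩, h5⟩ := ((h1.and h2).and self_mem_nhdsWithin).exists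
    exact ⟨κ, h5, h4, h3⟩
  obtain ⟨m, hm⟩ := exists_nat_gt (2 * D / κ)
  have hm1 : 2 * D * (1 / ((m : ℝ) + 1)) < κ := by
    rw [div_lt_iff₀ hκ] at hm
    rw [mul_one_div, div_lt_iff₀ (by positivity)]
    linarith
  obtain ⟨K1, s1, j1, b1, b2, b3⟩ := hθ m z hz u t O
  have hF' : ∀ k, FarAt p z θ u t κ k := fun k j hj =>
    hκ1.trans (hκε0 (u k) _ (O.hit k) (hcon k) j hj)
  have hne1 : j1 - 1 ≠ j1 := Pool.Agent.W174.PG.im j1
  have hstart : κ ≤ sf p j1 (ps p z θ u K1 (tp t K1)) +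
      sf p (j1 - 1) (ps p z θ u K1 (tp t K1)) := by
    have hcr := ps_start_creg hp hz O K1
    have c1 : 0 ≤ sf p j1 (ps p z θ u K1 (tp t K1)) := hcr j1
    have c2 : 0 ≤ sf p (j1 - 1) (ps p z θ u K1 (tp t K1)) := hcr (j1 - 1)
    by_cases hj : ∀ m, K1 = m + 1 → j1 ≠ u m
    · have := ps_start hp O K1 hsf (fun m _ => hF' m) hj
      linarith
    · push Not at hj
      obtain ⟨m, hm1, hm2⟩ := hj
      have := ps_start hp O K1 hsf (fun m _ => hF' m) (j := j1 - 1) (by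
        intro m' hm'
        have : m' = m := by omega
        rw [this, ← hm2]
        exact hne1)
      linarith
  have hend : κ ≤ sf p j1 (ps p z θ u K1 (t K1)) +
      sf p (j1 - 1) (ps p z θ u K1 (t K1)) := by
    have hcr : ps p z θ u K1 (t K1) ∈ creg p := side_sub_creg hp _ (O.hit K1)
    have c1 : 0 ≤ sf p j1 (ps p z θ u K1 (t K1)) := hcr j1
    have c2 : 0 ≤ sf p (j1 - 1) (ps p z θ u K1 (t K1)) := hcr (j1 - 1)
    by_cases hj : j1 = u K1
    · have : κ ≤ sf p (j1 - 1) (ps p z θ u K1 (t K1)) := hF' K1 (j1 - 1) (by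
        rw [← hj]; exact hne1)
      linarith
    · have : κ ≤ sf p j1 (ps p z θ u K1 (t K1)) := hF' K1 j1 hj
      linarith
  unfold ps at hstart hend b3
  rw [sf_ray, sf_ray] at hstart hend
  have hmid := affine_ge (α := sf p j1 (srcs p z u K1) + sf p (j1 - 1) (srcs p z u K1))
    (β := sl p j1 (angs p θ u K1) + sl p (j1 - 1) (angs p θ u K1)) (κ := κ)
    (a := tp t K1) (b := t K1) (s := s1) (by linarith) (by linarith) b1.le b2.le
  have v1 : sf p j1 (p j1) = 0 := Pool.Agent.W82.BB.sf_vertex_left p j1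
  have v2 : sf p (j1 - 1) (p j1) = 0 := Pool.Agent.W82.BB.sf_vertex_right p j1
  have l1 := (le_abs_self _).trans
    (sf_lip p j1 (srcs p z u K1 + s1 • dir (angs p θ u K1)) (p j1))
  have l2 := (le_abs_self _).trans
    (sf_lip p (j1 - 1) (srcs p z u K1 + s1 • dir (angs p θ u K1)) (p j1))
  rw [v1, sf_ray] at l1
  rw [v2, sf_ray] at l2
  have l3 := mul_le_mul (hDs j1) b3.le (norm_nonneg _) hD0.le
  have l4 := mul_le_mul (hDs (j1 - 1)) b3.le (norm_nonneg _) hD0.le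
  linarith

end Pool.Agent.N130.BP
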